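import Pool.Agent.J4H93.HN.Stm

set_option autoImplicit false

/-! Project HN (helper93), piece SML (helper68): the small frequencies. -/

namespace Pool.Agent.J4H68.HN

open Finset Filter Topology Pool.Agent.J4H93.HN

/-- `z / |z|` is near `1` -/
theorem unit_near (z : ℂ) (h1 : 1 / 2 ≤ z.re) : ‖z / (‖z‖ : ℂ) - 1‖ ≤ 4 * |z.im| := by
  have hz : z.re ≤ ‖z‖ := Complex.re_le_norm z
  have hρ : 1 / 2 ≤ ‖z‖ := h1.trans hz
  have hρ0 : 0 < ‖z‖ := by linarith
  have h2 : ‖z - (‖z‖ : ℂ)‖ ^ 2 ≤ 2 * z.im ^ 2 := by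
    have h3 : ‖z - (‖z‖ : ℂ)‖ ^ 2 = (z.re - ‖z‖) ^ 2 + z.im ^ 2 := by
      rw [Complex.sq_norm, Complex.normSq_apply]
      simp
      ring
    have h4 : ‖z‖ ^ 2 = z.re ^ 2 + z.im ^ 2 := by
      rw [Complex.sq_norm, Complex.normSq_apply]
      ring
    have h5 : (‖z‖ - z.re) * (‖z‖ + z.re) = z.im ^ 2 := by nlinarith
    have h6 : (‖z‖ - z.re) * ‖z‖ ≤ z.im ^ 2 := by
      rw [← h5]
      apply mul_le_mul_of_nonneg_left (by linarith) (by linarith)
    rw [h3]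
    nlinarith
  have h7 : ‖z - (‖z‖ : ℂ)‖ ≤ 2 * |z.im| := by
    apply abs_le_of_sq_le_sq' _ (by positivity) |>.2
    rw [mul_pow, sq_abs]
    nlinarith [sq_nonneg z.im]
  have h8 : z / (‖z‖ : ℂ) - 1 = (z - (‖z‖ : ℂ)) / (‖z‖ : ℂ) := by
    have : (‖z‖ : ℂ) ≠ 0 := by
      exact_mod_cast hρ0.ne'
    field_simp
  rw [h8, norm_div, Complex.norm_real, norm_norm, div_le_iff₀ hρ0]
  have h9 : 0 ≤ |z.im| := abs_nonneg _
  nlinarith

/-- the turned factor -/
noncomputable def zf (q θ : ℝ) : ℂ :=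
  ((1 - q : ℝ) : ℂ) * Complex.exp ((-(q * θ) : ℝ) * Complex.I) + (q : ℂ) * Complex.exp (((1 - q) * θ : ℝ) * Complex.I)

theorem zf_re (q θ : ℝ) : (zf q θ).re = (1 - q) * Real.cos (q * θ) + q * Real.cos ((1 - q) * θ) := by
  unfold zf
  rw [Complex.add_re, Complex.re_ofReal_mul, Complex.re_ofReal_mul, Complex.exp_ofReal_mul_I_re,
    Complex.exp_ofReal_mul_I_re, Real.cos_neg]

theorem zf_im (q θ : ℝ) : (zf q θ).im = -((1 - q) * Real.sin (q * θ)) + q * Real.sin ((1 - q) * θ) := by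
  unfold zf
  rw [Complex.add_im, Complex.im_ofReal_mul, Complex.im_ofReal_mul, Complex.exp_ofReal_mul_I_im,
    Complex.exp_ofReal_mul_I_im, Real.sin_neg]
  ring

theorem sin_near (x : ℝ) (h0 : 0 ≤ x) (_ : x ≤ 1) : x - x ^ 3 / 4 ≤ Real.sin x ∧ Real.sin x ≤ x := by
  rcases h0.eq_or_lt with h | h
  · rw [← h]
    simp
  · have h2 := Real.sin_gt_sub_cube h
    have h3 : 0 ≤ x ^ 3 := by positivity
    exact ⟨by linarith, (Real.sin_lt h).le⟩

theorem zf_bounds (q θ : ℝ) (hq0 : 0 ≤ q) (hq1 : q ≤ 1 / 2) (h0 : 0 ≤ θ) (h1 : θ ≤ 1) :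
    1 / 2 ≤ (zf q θ).re ∧ |(zf q θ).im| ≤ q * θ ^ 3 := by
  have a1 : 0 ≤ q * θ := by positivity
  have a2 : q * θ ≤ θ := by nlinarith
  have a3 : 0 ≤ (1 - q) * θ := mul_nonneg (by linarith) h0
  have a4 : (1 - q) * θ ≤ θ := by nlinarith
  constructor
  · rw [zf_re]
    have c1 : 1 / 2 ≤ Real.cos (q * θ) := by
      have := Real.one_sub_sq_div_two_le_cos (x := q * θ)
      nlinarith
    have c2 : 1 / 2 ≤ Real.cos ((1 - q) * θ) := by
      have := Real.one_sub_sq_div_two_le_cos (x := (1 - q) * θ)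
      nlinarith
    nlinarith
  · rw [zf_im]
    obtain ⟨s1, s2⟩ := sin_near (q * θ) a1 (a2.trans h1)
    obtain ⟨s3, s4⟩ := sin_near ((1 - q) * θ) a3 (a4.trans h1)
    have e1 : (q * θ) ^ 3 ≤ q * θ ^ 3 := by
      have : q ^ 3 ≤ q := by nlinarith [sq_nonneg q, mul_nonneg hq0 (sq_nonneg q)]
      rw [mul_pow]
      gcongr
    have e2 : ((1 - q) * θ) ^ 3 ≤ θ ^ 3 := by gcongr
    have e3 : 0 ≤ θ ^ 3 := by positivity
    rw [abs_le]
    constructor
    · -- lower bound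
      have f1 : (1 - q) * Real.sin (q * θ) ≤ (1 - q) * (q * θ) := mul_le_mul_of_nonneg_left s2 (by linarith)
      have f2 : q * ((1 - q) * θ - ((1 - q) * θ) ^ 3 / 4) ≤ q * Real.sin ((1 - q) * θ) :=
        mul_le_mul_of_nonneg_left s3 hq0
      have f3 : q * ((1 - q) * θ) ^ 3 ≤ q * θ ^ 3 := mul_le_mul_of_nonneg_left e2 hq0
      nlinarith
    · have f1 : (1 - q) * (q * θ - (q * θ) ^ 3 / 4) ≤ (1 - q) * Real.sin (q * θ) :=
        mul_le_mul_of_nonneg_left s1 (by linarith)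
      have f2 : q * Real.sin ((1 - q) * θ) ≤ q * ((1 - q) * θ) := mul_le_mul_of_nonneg_left s4 hq0
      have f3 : (1 - q) * (q * θ) ^ 3 ≤ 1 * (q * θ ^ 3) := by
        apply mul_le_mul (by linarith) e1 (by positivity) (by norm_num)
      have f4 : 0 ≤ q * θ ^ 3 := by positivity
      nlinarith

theorem factor_eq (q θ : ℝ) : 1 - (q : ℂ) + q * Complex.exp ((θ : ℝ) * Complex.I) =
    zf q θ * Complex.exp ((q * θ : ℝ) * Complex.I) := by
  unfold zf
  rw [add_mul, mul_assoc, mul_assoc, ← Complex.exp_add, ← Complex.exp_add]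
  have e1 : ((-(q * θ) : ℝ) : ℂ) * Complex.I + ((q * θ : ℝ) : ℂ) * Complex.I = 0 := by
    push_cast
    ring
  have e2 : (((1 - q) * θ : ℝ) : ℂ) * Complex.I + ((q * θ : ℝ) : ℂ) * Complex.I = (θ : ℂ) * Complex.I := by
    push_cast
    ring
  rw [e1, e2, Complex.exp_zero]
  push_cast
  ring

theorem t_SML : S_SML := by
  intro Y hY B hB hR h hh
  have hYR : (10 : ℝ) ^ 6 ≤ Y := by exact_mod_cast hY
  have hY1 : (1 : ℝ) ≤ Y := by linarith [show (1 : ℝ) ≤ 10 ^ 6 by norm_num]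
  have hY0 : (0 : ℝ) < Y := by linarith
  set q : ℝ := 1 / R B with hq
  have hR0 : 0 < R B := by linarith
  have hq0 : 0 ≤ q := by positivity
  have hq1 : q ≤ 1 / 2 := by
    rw [hq]
    exact one_div_le_one_div_of_le (by norm_num) hR
  have hqR : q * R B = 1 := by
    rw [hq]
    field_simp
  set θ : ℕ → ℝ := fun n => 2 * Real.pi * h / n with hθ
  have hhR : (h : ℝ) ≤ (Y : ℝ) ^ 181 := by exact_mod_cast hh
  have hpi : 2 * Real.pi ≤ 7 := by linarith [Real.pi_lt_d2]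
  have hpi0 : 0 ≤ 2 * Real.pi := by positivity
  have hB' : ∀ n ∈ B, (Y : ℝ) ^ 319 ≤ n := fun n hn => by exact_mod_cast (hB n hn).1
  have hBpos : ∀ n ∈ B, (0 : ℝ) < n := fun n hn => lt_of_lt_of_le (by positivity) (hB' n hn)
  have hθ0 : ∀ n ∈ B, 0 ≤ θ n := fun n hn => by
    have := hBpos n hn
    simp only [hθ]
    positivity
  have hnum : 2 * Real.pi * h ≤ 7 * (Y : ℝ) ^ 181 := by
    apply mul_le_mul hpi hhR (by positivity) (by norm_num)
  have hθ1 : ∀ n ∈ B, θ n ≤ 1 := fun n hn => by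
    simp only [hθ]
    rw [div_le_one (hBpos n hn)]
    refine hnum.trans (le_trans ?_ (hB' n hn))
    have h1 : (Y : ℝ) ^ 319 = (Y : ℝ) ^ 138 * (Y : ℝ) ^ 181 := by rw [← pow_add]
    rw [h1]
    have h2 : (7 : ℝ) ≤ (Y : ℝ) ^ 138 := by
      calc (7 : ℝ) ≤ Y := by linarith [show (7 : ℝ) ≤ 10 ^ 6 by norm_num]
        _ = (Y : ℝ) ^ 1 := (pow_one _).symm
        _ ≤ (Y : ℝ) ^ 138 := pow_le_pow_right₀ hY1 (by norm_num)
    gcongr
  -- the product
  have hPh : Ph B q (h : ℤ) = ∏ n ∈ B, zf q (θ n) := by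
    have h1 : Ph B q (h : ℤ) = ∏ n ∈ B, (zf q (θ n) * Complex.exp ((q * θ n : ℝ) * Complex.I)) := by
      unfold Ph
      apply prod_congr rfl
      intro n hn
      rw [← factor_eq]
      congr 3
      simp only [hθ]
      push_cast
      ring
    rw [h1, prod_mul_distrib, ← Complex.exp_sum, ← sum_mul]
    have h2 : (∑ n ∈ B, ((q * θ n : ℝ) : ℂ)) = 2 * Real.pi * h := by
      rw [← Complex.ofReal_sum]
      have h3 : ∑ n ∈ B, q * θ n = 2 * Real.pi * h := by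
        calc ∑ n ∈ B, q * θ n = ∑ n ∈ B, (2 * Real.pi * h) * (q * (1 / (n : ℝ))) := by
              apply sum_congr rfl
              intro n _
              simp only [hθ]
              ring
          _ = (2 * Real.pi * h) * (q * R B) := by
              rw [← mul_sum, ← mul_sum]
              rfl
          _ = _ := by rw [hqR, mul_one]
      rw [h3]
      push_cast
      rfl
    rw [h2]
    have h4 : Complex.exp (2 * Real.pi * h * Complex.I) = 1 := by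
      have := Complex.exp_nat_mul_two_pi_mul_I h
      rw [← this]
      congr 1
      ring
    rw [h4, mul_one]
  rw [hPh]
  -- units
  set u : ℕ → ℂ := fun n => zf q (θ n) / (‖zf q (θ n)‖ : ℂ) with hu
  have hb : ∀ n ∈ B, 1 / 2 ≤ (zf q (θ n)).re ∧ |(zf q (θ n)).im| ≤ q * θ n ^ 3 := fun n hn =>
    zf_bounds q (θ n) hq0 hq1 (hθ0 n hn) (hθ1 n hn)
  have hnorm : ∀ n ∈ B, 0 < ‖zf q (θ n)‖ := fun n hn =>
    lt_of_lt_of_le (by norm_num) ((hb n hn).1.trans (Complex.re_le_norm _))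
  have hzu : ∀ n ∈ B, zf q (θ n) = (‖zf q (θ n)‖ : ℂ) * u n := fun n hn => by
    have : (‖zf q (θ n)‖ : ℂ) ≠ 0 := by exact_mod_cast (hnorm n hn).ne'
    simp only [hu]
    field_simp
  have hprod : ∏ n ∈ B, zf q (θ n) = ((∏ n ∈ B, ‖zf q (θ n)‖ : ℝ) : ℂ) * ∏ n ∈ B, u n := by
    rw [prod_congr rfl hzu, prod_mul_distrib]
    push_cast
    rfl
  rw [hprod, Complex.re_ofReal_mul]
  apply mul_nonneg (prod_nonneg fun n _ => norm_nonneg _)
  have hsum : ∑ n ∈ B, ‖u n - 1‖ ≤ 1 / 2 := by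
    calc ∑ n ∈ B, ‖u n - 1‖ ≤ ∑ n ∈ B, (4 * (2 * Real.pi * h) ^ 3 / ((Y : ℝ) ^ 319) ^ 2) * (q * (1 / (n : ℝ))) := by
          apply sum_le_sum
          intro n hn
          have h1 := unit_near _ (hb n hn).1
          have h2 : 4 * |(zf q (θ n)).im| ≤ 4 * (q * θ n ^ 3) := by
            have := (hb n hn).2
            linarith
          refine h1.trans (h2.trans ?_)
          have h3 := hBpos n hn
          have h4 := hB' n hn
          simp only [hθ]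
          have h5 : 4 * (q * (2 * Real.pi * h / n) ^ 3) = (4 * (2 * Real.pi * h) ^ 3 / (n : ℝ) ^ 2) * (q * (1 / n)) := by
            field_simp
          rw [h5]
          gcongr
      _ = (4 * (2 * Real.pi * h) ^ 3 / ((Y : ℝ) ^ 319) ^ 2) * (q * R B) := by
          rw [← mul_sum, ← mul_sum]
          rfl
      _ = 4 * (2 * Real.pi * h) ^ 3 / ((Y : ℝ) ^ 319) ^ 2 := by rw [hqR, mul_one]
      _ ≤ 4 * (7 * (Y : ℝ) ^ 181) ^ 3 / ((Y : ℝ) ^ 319) ^ 2 := by gcongr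
      _ = 1372 / (Y : ℝ) ^ 95 := by
          rw [mul_pow, ← pow_mul, ← pow_mul, div_eq_div_iff (by positivity) (by positivity)]
          have : (Y : ℝ) ^ (319 * 2) = (Y : ℝ) ^ (181 * 3) * (Y : ℝ) ^ 95 := by rw [← pow_add]
          rw [this]
          ring
      _ ≤ 1 / 2 := by
          rw [div_le_div_iff₀ (by positivity) (by norm_num)]
          have : (10 : ℝ) ^ 6 ≤ (Y : ℝ) ^ 95 := by
            calc (10 : ℝ) ^ 6 ≤ Y := hYR
              _ = (Y : ℝ) ^ 1 := (pow_one _).symm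
              _ ≤ (Y : ℝ) ^ 95 := pow_le_pow_right₀ hY1 (by norm_num)
          linarith [show (1372 : ℝ) * 2 ≤ 10 ^ 6 by norm_num]
  have h1 : ‖∏ n ∈ B, u n - 1‖ ≤ Real.exp (∑ n ∈ B, ‖u n - 1‖) - 1 := by
    have := Finset.norm_prod_one_add_sub_one_le B (fun n => u n - 1)
    simpa using this
  have h2 : Real.exp (∑ n ∈ B, ‖u n - 1‖) ≤ Real.exp (1 / 2) := Real.exp_le_exp.mpr hsum
  have h3 : Real.exp (1 / 2) < 2 := by
    have h4 : Real.exp (1 / 2) ^ 2 = Real.exp 1 := by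
      rw [← Real.exp_nat_mul]
      norm_num
    have h5 := Real.exp_one_lt_d9
    nlinarith [Real.exp_pos (1 / 2)]
  have h4 : |(∏ n ∈ B, u n - 1).re| ≤ ‖∏ n ∈ B, u n - 1‖ := Complex.abs_re_le_norm _
  have h5 : -1 ≤ (∏ n ∈ B, u n - 1).re := by
    have := neg_abs_le (∏ n ∈ B, u n - 1).re
    linarith
  rw [Complex.sub_re, Complex.one_re] at h5
  linarith

end Pool.Agent.J4H68.HN
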