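import Pool.Agent.J4H93.HN.Stm

set_option autoImplicit false

/-! Project HN (helper93), piece TAIL (helper68): large deviations. -/

namespace Pool.Agent.J4H68.HN

open Finset Filter Topology Pool.Agent.J4H93.HN

theorem exp_le_chord (t : ℝ) (h0 : 0 ≤ t) (h1 : t ≤ 1) : Real.exp t ≤ 1 + (Real.exp 1 - 1) * t := by
  have h := convexOn_exp.2 (Set.mem_univ (0 : ℝ)) (Set.mem_univ (1 : ℝ)) (by linarith : (0 : ℝ) ≤ 1 - t) h0 (by ring)
  simp only [smul_eq_mul, mul_zero, mul_one, zero_add, Real.exp_zero] at h
  linarith

theorem wt_nonneg (B S : Finset ℕ) (q : ℝ) (h0 : 0 ≤ q) (h1 : q ≤ 1) : 0 ≤ wt B q S :=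
  mul_nonneg (pow_nonneg h0 _) (pow_nonneg (by linarith) _)

theorem mgf (B : Finset ℕ) (q l : ℝ) :
    ∑ S ∈ B.powerset, wt B q S * Real.exp (l * R S) = ∏ n ∈ B, (q * Real.exp (l / n) + (1 - q)) := by
  rw [prod_add]
  apply sum_congr rfl
  intro S hS
  rw [mem_powerset] at hS
  unfold wt
  rw [prod_mul_distrib, prod_const, prod_const, card_sdiff_of_subset hS, ← Real.exp_sum]
  have : l * R S = ∑ n ∈ S, l / (n : ℝ) := by
    unfold R
    rw [mul_sum]
    apply sum_congr rfl
    intro n _
    ring
  rw [this]
  ring

theorem t_TAIL : S_TAIL := by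
  classical
  intro B N hN hB hR
  set q : ℝ := 1 / R B with hq
  have hR0 : 0 < R B := by linarith
  have hq0 : 0 ≤ q := by positivity
  have hq1 : q ≤ 1 / 2 := by
    rw [hq]
    exact one_div_le_one_div_of_le (by norm_num) hR
  have hqR : q * R B = 1 := by
    rw [hq]
    field_simp
  have hNR : (0 : ℝ) < N := by exact_mod_cast hN
  have hBn : ∀ n ∈ B, (N : ℝ) ≤ n := fun n hn => by exact_mod_cast hB n hn
  have he := Real.exp_one_lt_d9
  constructor
  · have h1 : ∏ n ∈ B, (q * Real.exp ((N : ℝ) / n) + (1 - q)) ≤ Real.exp ((Real.exp 1 - 1) * N) := by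
      have h2 : ∀ n ∈ B, q * Real.exp ((N : ℝ) / n) + (1 - q) ≤ Real.exp (q * ((Real.exp 1 - 1) * (N / n))) := by
        intro n hn
        have h3 := hBn n hn
        have h4 : (0 : ℝ) < n := by linarith
        have h5 := exp_le_chord ((N : ℝ) / n) (by positivity) ((div_le_one h4).2 h3)
        have h6 : q * Real.exp ((N : ℝ) / n) ≤ q * (1 + (Real.exp 1 - 1) * (N / n)) := mul_le_mul_of_nonneg_left h5 hq0
        have h7 := Real.add_one_le_exp (q * ((Real.exp 1 - 1) * ((N : ℝ) / n)))
        nlinarith
      calc ∏ n ∈ B, (q * Real.exp ((N : ℝ) / n) + (1 - q)) ≤ ∏ n ∈ B, Real.exp (q * ((Real.exp 1 - 1) * (N / n))) := by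
            apply Finset.prod_le_prod
            · intro n _
              have := Real.exp_pos ((N : ℝ) / n)
              have : 0 ≤ q * Real.exp ((N : ℝ) / n) := by positivity
              linarith
            · exact h2
        _ = Real.exp ((Real.exp 1 - 1) * N * (q * R B)) := by
            rw [← Real.exp_sum]
            congr 1
            unfold R
            rw [mul_sum, mul_sum]
            apply sum_congr rfl
            intro n _
            ring
        _ = _ := by rw [hqR, mul_one]
    have h2 : Real.exp (2 * N) * ∑ S ∈ B.powerset.filter (fun S => 2 ≤ R S), wt B q S ≤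
        ∑ S ∈ B.powerset, wt B q S * Real.exp (N * R S) := by
      rw [mul_sum]
      calc ∑ S ∈ B.powerset.filter (fun S => 2 ≤ R S), Real.exp (2 * N) * wt B q S
          ≤ ∑ S ∈ B.powerset.filter (fun S => 2 ≤ R S), wt B q S * Real.exp (N * R S) := by
            apply sum_le_sum
            intro S hS
            rw [mem_filter] at hS
            have h3 : Real.exp (2 * N) ≤ Real.exp (N * R S) := by
              apply Real.exp_le_exp.mpr
              nlinarith [hS.2]
            rw [mul_comm]
            exact mul_le_mul_of_nonneg_left h3 (wt_nonneg _ _ _ hq0 (by linarith))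
        _ ≤ _ := by
            apply sum_le_sum_of_subset_of_nonneg (filter_subset _ _)
            intro S _ _
            exact mul_nonneg (wt_nonneg _ _ _ hq0 (by linarith)) (Real.exp_pos _).le
    rw [mgf] at h2
    have h3 := h2.trans h1
    have h4 : ∑ S ∈ B.powerset.filter (fun S => 2 ≤ R S), wt B q S ≤
        Real.exp ((Real.exp 1 - 1) * N) / Real.exp (2 * N) := by
      rw [le_div_iff₀ (Real.exp_pos _), mul_comm]
      exact h3
    refine h4.trans ?_
    rw [← Real.exp_sub]
    apply Real.exp_le_exp.mpr
    nlinarith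
  · have h1 : wt B q ∅ = (1 - q) ^ B.card := by
      simp [wt]
    rw [h1]
    have h2 : 1 - q ≤ Real.exp (-q) := by
      have := Real.add_one_le_exp (-q)
      linarith
    have h3 : R B ≤ B.card / N := by
      calc R B ≤ ∑ n ∈ B, 1 / (N : ℝ) := by
            apply sum_le_sum
            intro n hn
            exact one_div_le_one_div_of_le hNR (hBn n hn)
        _ = _ := by
            rw [sum_const, nsmul_eq_mul]
            ring
    rw [le_div_iff₀ hNR] at h3
    calc (1 - q) ^ B.card ≤ Real.exp (-q) ^ B.card := by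
          apply pow_le_pow_left₀ (by linarith) h2
      _ = Real.exp (-(q * B.card)) := by
          rw [← Real.exp_nat_mul]
          congr 1
          ring
      _ ≤ Real.exp (-(N : ℝ)) := by
          apply Real.exp_le_exp.mpr
          have h4 : q * (R B * N) ≤ q * B.card := mul_le_mul_of_nonneg_left h3 hq0
          have h5 : q * (R B * N) = N := by
            rw [← mul_assoc, hqR, one_mul]
          linarith

end Pool.Agent.J4H68.HN
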